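import Mathlib
import Pool.Agent.X318.ThreeAdicC

/-!
# MP_7f2dba_nt: 3-adic valuations of alternating sums of central binomials over powers of `m`
-/

set_option autoImplicit false

open Finset

namespace Pool.Agent.Results.MP_7f2dba_nt.ThreeAdicValuation

/-- `ν₃(x)` for a rational number `x`, with `ν₃(0) = +∞`. -/
noncomputable def nu3 (x : ℚ) : WithTop ℤ := if x = 0 then ⊤ else ((padicValRat 3 x : ℤ) : WithTop ℤ)

/-- `S_m(n) = ∑_{0 ≤ k < n} (-1)^k C(n-1,k) C(2k,k) m^{-k}`. -/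
def S (m : ℤ) (n : ℕ) : ℚ :=
  ∑ k ∈ range n, (-1) ^ k * ((n - 1).choose k : ℚ) * ((2 * k).choose k : ℚ) * ((m : ℚ) ^ k)⁻¹

open Pool.Agent.X318.ThreeAdic in
lemma le_nu3 {e : ℤ} {x : ℚ} (h : N x ≤ 3 ^ (-e)) : ((e : ℤ) : WithTop ℤ) ≤ nu3 x := by
  unfold nu3
  split_ifs with h0
  · exact le_top
  · rw [N, padicNorm.eq_zpow_of_nonzero h0] at h
    push_cast at h
    have h1 := (zpow_le_zpow_iff_right₀ (by norm_num : (1 : ℚ) < 3)).1 h
    exact WithTop.coe_le_coe.2 (by omega)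

/-- Q1: for every integer `m ≡ 1 (mod 3)` and every `n ≥ 1`,
`ν₃(S_m(n)/n) ≥ min(ν₃(n), ν₃(m-1)) - 1`.
Q2(a): for `m ≡ 1 (mod 3)`, `m ≠ 1` and `a > ν₃(m-1)`,
`3^{-a} S_m(3^a) ≡ -(m-1)/3 (mod 3^{ν₃(m-1)})`.
Q2(b): for `a ≥ 2`, `S_1(3^a) ≡ -3^(2a-1) (mod 3^(2a))`. -/
theorem result :
    (∀ m : ℤ, m ≡ 1 [ZMOD 3] → ∀ n : ℕ, 0 < n →
      min (nu3 n) (nu3 ((m : ℚ) - 1)) ≤ nu3 (S m n / n) + 1) ∧
    (∀ m : ℤ, m ≡ 1 [ZMOD 3] → m ≠ 1 → ∀ a : ℕ, nu3 ((m : ℚ) - 1) < ((a : ℤ) : WithTop ℤ) →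
      nu3 ((m : ℚ) - 1) ≤ nu3 (S m (3 ^ a) / 3 ^ a - (-((m : ℚ) - 1) / 3))) ∧
    (∀ a : ℕ, 2 ≤ a → ((2 * (a : ℤ) : ℤ) : WithTop ℤ) ≤ nu3 (S 1 (3 ^ a) - (-3 ^ (2 * a - 1)))) := by
  have hS : S = Pool.Agent.X318.ThreeAdic.S := rfl
  have hval : ∀ m : ℤ, m ≠ 1 → ∃ s : ℕ, nu3 ((m : ℚ) - 1) = ((s : ℤ) : WithTop ℤ) ∧
      (3 : ℤ) ^ s ∣ m - 1 := by
    intro m hm
    have h0 : m - 1 ≠ 0 := sub_ne_zero.2 hm
    have h0' : (m : ℚ) - 1 ≠ 0 := by exact_mod_cast h0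
    refine ⟨padicValInt 3 (m - 1), ?_, ?_⟩
    · unfold nu3
      rw [if_neg h0', show (m : ℚ) - 1 = ((m - 1 : ℤ) : ℚ) by push_cast; ring, padicValRat.of_int]
    · have := padicValInt_dvd (p := 3) (m - 1)
      exact_mod_cast this
  refine ⟨?_, ?_, ?_⟩
  · intro m hm n hn
    have hm' : (3 : ℤ) ∣ m - 1 := (Int.modEq_iff_dvd.1 hm.symm)
    obtain ⟨a, ha⟩ : ∃ a, a = padicValNat 3 n := ⟨_, rfl⟩
    have hn0 : (n : ℚ) ≠ 0 := by exact_mod_cast hn.ne'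
    have hnu : nu3 n = ((a : ℤ) : WithTop ℤ) := by
      unfold nu3
      rw [if_neg hn0, padicValRat.of_nat, ha]
    have hNn : Pool.Agent.X318.ThreeAdic.N (n : ℚ) = 3 ^ (-(a : ℤ)) := by
      rw [Pool.Agent.X318.ThreeAdic.N, padicNorm.eq_zpow_of_nonzero hn0, padicValRat.of_nat, ha]
      norm_num
    have hdvd : 3 ^ a ∣ n := ha ▸ pow_padicValNat_dvd
    -- the finite value of the minimum
    obtain ⟨e, he1, he2, he3⟩ : ∃ e : ℕ, min (nu3 n) (nu3 ((m : ℚ) - 1)) = ((e : ℤ) : WithTop ℤ) ∧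
        e ≤ a ∧ (3 : ℤ) ^ e ∣ m - 1 := by
      by_cases h1 : m = 1
      · refine ⟨a, ?_, le_rfl, ?_⟩
        · rw [hnu, h1]
          unfold nu3
          simp
        · rw [h1]
          simp
      · obtain ⟨s, hs1, hs2⟩ := hval m h1
        refine ⟨min a s, ?_, min_le_left _ _, ?_⟩
        · rw [hnu, hs1, ← WithTop.coe_min]
          congr 1
          push_cast
          rfl
        · exact (pow_dvd_pow _ (min_le_right _ _)).trans hs2
    rw [he1]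
    have hb : Pool.Agent.X318.ThreeAdic.N (S m n / n) ≤ 3 ^ (-((e : ℤ) - 1)) := by
      have h1 : Pool.Agent.X318.ThreeAdic.N (S m n / n) =
          Pool.Agent.X318.ThreeAdic.N (S m n) / Pool.Agent.X318.ThreeAdic.N (n : ℚ) :=
        padicNorm.div _ _
      rw [h1, hNn, div_le_iff₀ (by positivity), ← zpow_add₀ (by norm_num)]
      rcases Nat.eq_zero_or_pos a with h0 | h0
      · have he0 : e = 0 := by omega
        rw [hS, Pool.Agent.X318.ThreeAdic.N_S m hm' n hn]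
        refine (Pool.Agent.X318.ThreeAdic.N_int _).trans ?_
        rw [h0, he0]
        norm_num
      · refine (Pool.Agent.X318.ThreeAdic.N_S_bound m hm' n hn a e hdvd h0 he3 he2).trans
          (le_of_eq ?_)
        congr 1
        ring
    have h2 := add_le_add_left (le_nu3 hb) 1
    refine le_trans (le_of_eq ?_) h2
    rw [← WithTop.coe_one, ← WithTop.coe_add]
    congr 1
    ring
  · intro m hm hm1 a ha
    have hm' : (3 : ℤ) ∣ m - 1 := (Int.modEq_iff_dvd.1 hm.symm)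
    obtain ⟨s, hs1, hs2⟩ := hval m hm1
    rw [hs1] at ha ⊢
    have hsa : s < a := by
      have := WithTop.coe_lt_coe.1 ha
      omega
    apply le_nu3
    have h := Pool.Agent.X318.ThreeAdic.Q2a m hm' a s hs2 hsa
    have h3a : Pool.Agent.X318.ThreeAdic.N ((3 : ℚ) ^ a) = 3 ^ (-(a : ℤ)) := by
      have h0 : (3 : ℚ) ^ a ≠ 0 := by positivity
      rw [Pool.Agent.X318.ThreeAdic.N, padicNorm.eq_zpow_of_nonzero h0]
      have : padicValRat 3 ((3 : ℚ) ^ a) = a := by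
        have h5 : padicValRat 3 ((3 : ℚ) ^ a) = a * padicValRat 3 (3 : ℚ) := padicValRat.pow 3
        rw [h5]
        have h3 := padicValRat.self (p := 3) (by norm_num)
        push_cast at h3
        rw [h3, mul_one]
      rw [this]
      norm_num
    have e : S m (3 ^ a) / 3 ^ a - (-((m : ℚ) - 1) / 3) =
        (S m (3 ^ a) + 3 ^ (a - 1) * (m - 1)) / 3 ^ a := by
      have h4 : (3 : ℚ) ^ a = 3 ^ (a - 1) * 3 := by
        rw [← pow_succ]
        congr 1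
        omega
      rw [h4]
      field_simp
      ring
    have h1 : Pool.Agent.X318.ThreeAdic.N ((S m (3 ^ a) + 3 ^ (a - 1) * (m - 1)) / 3 ^ a) =
        Pool.Agent.X318.ThreeAdic.N (S m (3 ^ a) + 3 ^ (a - 1) * (m - 1)) /
          Pool.Agent.X318.ThreeAdic.N ((3 : ℚ) ^ a) := padicNorm.div _ _
    rw [e, h1, h3a, div_le_iff₀ (by positivity), ← zpow_add₀ (by norm_num)]
    refine h.trans (le_of_eq ?_)
    congr 1
    ring
  · intro a ha
    apply le_nu3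
    have h := Pool.Agent.X318.ThreeAdic.Q2b a ha
    have e : S 1 (3 ^ a) - (-3 ^ (2 * a - 1)) = S 1 (3 ^ a) + 3 ^ (2 * a - 1) := by ring
    rw [e]
    exact h

end Pool.Agent.Results.MP_7f2dba_nt.ThreeAdicValuation
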